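import Mathlib
import Pool.Agent.Lib.MP_41a254_co.FiveMain

namespace Pool.Agent.Lib.MP_41a254_co.Old.FiveSuffice

/-- A convex body in `ℝ³`: a compact convex set with nonempty interior. -/
def IsBody (K : Set (EuclideanSpace ℝ (Fin 3))) : Prop :=
  IsCompact K ∧ Convex ℝ K ∧ (interior K).Nonempty

/-- For any three distinct members `A, B, C` a plane `f = c` (weakly) separates `A ∪ B`
from `C`. -/
def IsSeparable (F : Finset (Set (EuclideanSpace ℝ (Fin 3)))) : Prop :=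
  ∀ A ∈ F, ∀ B ∈ F, ∀ C ∈ F, A ≠ B → A ≠ C → B ≠ C →
    ∃ (f : EuclideanSpace ℝ (Fin 3) →L[ℝ] ℝ) (c : ℝ),
      f ≠ 0 ∧ (∀ x ∈ A ∪ B, f x ≤ c) ∧ (∀ x ∈ C, c ≤ f x)

/-- The plane `f = c` meets `K`, and `K` lies in the half-space `f ≤ c`. -/
def Supports (f : EuclideanSpace ℝ (Fin 3) →L[ℝ] ℝ) (c : ℝ)
    (K : Set (EuclideanSpace ℝ (Fin 3))) : Prop :=
  (∃ x ∈ K, f x = c) ∧ ∀ x ∈ K, f x ≤ c

/-- No four distinct members have a common supporting plane with all four on the same side. -/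
def IsNondegenerate (F : Finset (Set (EuclideanSpace ℝ (Fin 3)))) : Prop :=
  ∀ A ∈ F, ∀ B ∈ F, ∀ C ∈ F, ∀ D ∈ F, A ≠ B → A ≠ C → A ≠ D → B ≠ C → B ≠ D → C ≠ D →
    ¬ ∃ (f : EuclideanSpace ℝ (Fin 3) →L[ℝ] ℝ) (c : ℝ),
      f ≠ 0 ∧ Supports f c A ∧ Supports f c B ∧ Supports f c C ∧ Supports f c D

/-- For each member `C`, the boundary of the convex hull of the union contains a nonempty
relatively open piece `U ∩ ∂C` of the boundary of `C`. -/
def InConvexPosition (F : Finset (Set (EuclideanSpace ℝ (Fin 3)))) : Prop :=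
  ∀ C ∈ F, ∃ U : Set (EuclideanSpace ℝ (Fin 3)), IsOpen U ∧ (U ∩ frontier C).Nonempty ∧
    U ∩ frontier C ⊆ frontier (convexHull ℝ (⋃ K ∈ F, K))

open Pool.Agent.Lib.MP_41a254_co.Five

theorem result (m : ℕ) : ∃ N : ℕ, ∀ F : Finset (Set (EuclideanSpace ℝ (Fin 3))), N ≤ F.card →
    (∀ K ∈ F, IsBody K) → IsSeparable F → IsNondegenerate F →
    (∀ G ⊆ F, G.card = 5 → InConvexPosition G) →
    ∃ G ⊆ F, G.card = m ∧ InConvexPosition G := by
  classical
  rcases m with _ | m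
  · exact ⟨0, fun F _ _ _ _ _ => ⟨∅, Finset.empty_subset _, rfl, fun C hC => absurd hC (by simp)⟩⟩
  obtain ⟨N, hN⟩ := main_idx m
  refine ⟨N, fun F hF hb hs hn h5 => ?_⟩
  let B : ℕ → Set E3 := fun i => if h : i < F.card then (F.equivFin.symm ⟨i, h⟩ : Set E3) else ∅
  have hBF : ∀ i ∈ Finset.range F.card, B i ∈ F := by
    intro i hi
    simp only [B, dif_pos (Finset.mem_range.mp hi)]
    exact (F.equivFin.symm _).2
  have hinj : ∀ i ∈ Finset.range F.card, ∀ j ∈ Finset.range F.card, B i = B j → i = j := by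
    intro i hi j hj h
    simp only [B, dif_pos (Finset.mem_range.mp hi), dif_pos (Finset.mem_range.mp hj)] at h
    simpa using F.equivFin.symm.injective (Subtype.ext h)
  have hne : ∀ i ∈ Finset.range F.card, ∀ j ∈ Finset.range F.card, i ≠ j → B i ≠ B j :=
    fun i hi j hj h e => h (hinj i hi j hj e)
  have hcard : ∀ T ⊆ Finset.range F.card, (T.image B).card = T.card :=
    fun T hT => Finset.card_image_of_injOn fun i hi j hj h => hinj i (hT hi) j (hT hj) h
  have hsub : ∀ T ⊆ Finset.range F.card, T.image B ⊆ F := by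
    intro T hT K hK
    obtain ⟨i, hi, rfl⟩ := Finset.mem_image.mp hK
    exact hBF i (hT hi)
  have hun : ∀ T : Finset ℕ, (⋃ K ∈ T.image B, K) = ⋃ i ∈ T, B i :=
    fun T => Finset.set_biUnion_finset_image
  obtain ⟨T, hT, hTc, hp⟩ := hN B (Finset.range F.card) (by simpa using hF)
    (fun i hi => hb _ (hBF i hi)) (by
      intro i hi j hj k hk h1 h2 h3
      obtain ⟨f, c, hf, g1, g2⟩ := hs _ (hBF i hi) _ (hBF j hj) _ (hBF k hk) (hne i hi j hj h1)
        (hne i hi k hk h2) (hne j hj k hk h3)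
      obtain ⟨w, hw, hfw⟩ := exists_vec f hf
      refine ⟨w, hw, fun x hx y hy => ?_⟩
      rw [← hfw, ← hfw]
      exact (g1 y hy).trans (g2 x hx)) (by
      intro a ha i hi j hj k hk h1 h2 h3 h4 h5 h6 u c hu s1 s2 s3 s4
      refine hn _ (hBF a ha) _ (hBF i hi) _ (hBF j hj) _ (hBF k hk) (hne a ha i hi h1)
        (hne a ha j hj h2) (hne a ha k hk h3) (hne i hi j hj h4) (hne i hi k hk h5)
        (hne j hj k hk h6) ⟨innerSL ℝ u, c, ?_, s1, s2, s3, s4⟩
      intro h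
      have := congrArg (fun g : E3 →L[ℝ] ℝ => g u) h
      exact hu (by simpa using this)) (by
      intro T hT hTc a ha
      have := h5 _ (hsub T hT) (by rw [hcard T hT, hTc]) (B a) (Finset.mem_image_of_mem B ha)
      rwa [hun] at this)
  refine ⟨T.image B, hsub T hT, by rw [hcard T hT, hTc], ?_⟩
  intro C hC
  obtain ⟨a, ha, rfl⟩ := Finset.mem_image.mp hC
  rw [hun]
  exact hp a ha

end Pool.Agent.Lib.MP_41a254_co.Old.FiveSuffice
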