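import Mathlib
import Pool.Agent.Lib.MP_41a254_co.Radii

namespace Pool.Agent.Lib.MP_41a254_co.Old.KwiseNotGlobal

/-- A convex body in `ℝ³`: a compact convex set with nonempty interior. -/
def IsBody (K : Set (EuclideanSpace ℝ (Fin 3))) : Prop :=
  IsCompact K ∧ Convex ℝ K ∧ (interior K).Nonempty

/-- For any three distinct members `A, B, C` a plane `f = c` (strictly) separates `A ∪ B`
from `C`. -/
def IsSeparable (F : Finset (Set (EuclideanSpace ℝ (Fin 3)))) : Prop :=
  ∀ A ∈ F, ∀ B ∈ F, ∀ C ∈ F, A ≠ B → A ≠ C → B ≠ C →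
    ∃ (f : EuclideanSpace ℝ (Fin 3) →L[ℝ] ℝ) (c : ℝ),
      f ≠ 0 ∧ (∀ x ∈ A ∪ B, f x < c) ∧ (∀ x ∈ C, c < f x)

/-- The plane `f = c` supports `K`: it meets `K`, and `K` lies in one of its two closed
half-spaces. -/
def Supports (f : EuclideanSpace ℝ (Fin 3) →L[ℝ] ℝ) (c : ℝ)
    (K : Set (EuclideanSpace ℝ (Fin 3))) : Prop :=
  (∃ x ∈ K, f x = c) ∧ ((∀ x ∈ K, f x ≤ c) ∨ (∀ x ∈ K, c ≤ f x))

/-- No four distinct members have a common supporting plane. -/
def IsNondegenerate (F : Finset (Set (EuclideanSpace ℝ (Fin 3)))) : Prop :=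
  ∀ A ∈ F, ∀ B ∈ F, ∀ C ∈ F, ∀ D ∈ F, A ≠ B → A ≠ C → A ≠ D → B ≠ C → B ≠ D → C ≠ D →
    ¬ ∃ (f : EuclideanSpace ℝ (Fin 3) →L[ℝ] ℝ) (c : ℝ),
      f ≠ 0 ∧ Supports f c A ∧ Supports f c B ∧ Supports f c C ∧ Supports f c D

/-- For each member `C`, the boundary of the convex hull of the union contains a nonempty
relatively open piece `U ∩ ∂C` of the boundary of `C`. -/
def InConvexPosition (F : Finset (Set (EuclideanSpace ℝ (Fin 3)))) : Prop :=
  ∀ C ∈ F, ∃ U : Set (EuclideanSpace ℝ (Fin 3)), IsOpen U ∧ (U ∩ frontier C).Nonempty ∧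
    U ∩ frontier C ⊆ frontier (convexHull ℝ (⋃ K ∈ F, K))

open Pool.Agent.Lib.MP_41a254_co
open scoped RealInnerProductSpace

lemma supports_ball {f : E3 →L[ℝ] ℝ} {c t r : ℝ} {u p : E3} (hu : ‖u‖ = 1) (ht : 0 < t)
    (hf : ∀ x, f x = t * ⟪x, u⟫) (h : Supports f c (Metric.closedBall p r)) :
    |⟪p, u⟫ - c / t| ≤ r := by
  obtain ⟨⟨x, hx, hxc⟩, -⟩ := h
  have h1 := inner_le_ball (u := u) hx
  rw [hu, mul_one, abs_sub_comm] at h1
  have : c / t = ⟪x, u⟫ := by rw [← hxc, hf]; field_simp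
  rw [this]; exact h1

lemma supports_big {f : E3 →L[ℝ] ℝ} {c t r : ℝ} {u : E3} (hu : ‖u‖ = 1) (ht : 0 < t) (hr : 0 ≤ r)
    (hf : ∀ x, f x = t * ⟪x, u⟫) (h : Supports f c (Metric.closedBall 0 r)) :
    c / t = r ∨ c / t = -r := by
  have h1 := supports_ball hu ht hf h
  rw [inner_zero_left, zero_sub, abs_neg, abs_le] at h1
  have huu : ⟪u, u⟫ = 1 := by rw [real_inner_self_eq_norm_mul_norm, hu, mul_one]
  rcases h.2 with h2 | h2
  · left
    have := h2 (r • u) (by simp [norm_smul, hu, abs_of_nonneg hr])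
    rw [hf, real_inner_smul_left, huu, mul_one] at this
    have : r ≤ c / t := by rw [le_div_iff₀ ht]; linarith
    linarith [h1.2]
  · right
    have := h2 ((-r) • u) (by simp [norm_smul, hu, abs_of_nonneg hr])
    rw [hf, real_inner_smul_left, huu, mul_one] at this
    have : c / t ≤ -r := by rw [div_le_iff₀ ht]; linarith
    linarith [h1.1]

lemma main (ι : Type) [Fintype ι] (hι : 4 ≤ Fintype.card ι) (P0 : ι → E3) (h0 : BaseConf P0) :
    ∃ F : Finset (Set E3), F.card = Fintype.card ι + 1 ∧ (∀ K ∈ F, IsBody K) ∧ IsSeparable F ∧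
      IsNondegenerate F ∧ (∀ G ⊆ F, G.card < F.card → InConvexPosition G) ∧
      ¬ InConvexPosition F := by
  classical
  have : Nonempty ι := Fintype.card_pos_iff.mp (by omega)
  obtain ⟨η, hη, hm0⟩ := margin_of_base h0
  obtain ⟨P, hgp, hPP⟩ := exists_genPos P0 (τ := η / 4) (by positivity)
  obtain ⟨ρ, hρ, hρ1, hnt⟩ := exists_radius hι hgp (τ := η / 4) (by positivity)
  have hm := margin_perturb hm0 hPP hρ1
  obtain ⟨δ, hδ, hδη, hA, hB⟩ := exists_delta (η := η / 2) (by positivity) hgp hnt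
  let c : Option ι → E3 := fun o => o.elim 0 P
  let r : Option ι → ℝ := fun o => o.elim ρ (fun _ => δ)
  have hr : ∀ a, 0 < r a := by
    rintro (_ | i)
    · exact hρ
    · exact hδ
  let B : Option ι → Set E3 := fun a => Metric.closedBall (c a) (r a)
  -- strict exposure of the small balls
  have hD : ∀ i, ∃ u : E3, ‖u‖ = 1 ∧ ∀ b, b ≠ some i → ⟪c b, u⟫ + r b < ⟪P i, u⟫ - δ := by
    intro i
    obtain ⟨u, hu, h1, h2⟩ := hm.hd i
    refine ⟨u, hu, ?_⟩
    rintro (_ | j) hj
    · simp only [c, r, Option.elim, inner_zero_left]; linarith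
    · have := h2 j (fun h => hj (by rw [h]))
      simp only [c, r, Option.elim]; linarith
  have hsep1 : ∀ i, ∃ (f : E3 →L[ℝ] ℝ) (t : ℝ), f ≠ 0 ∧ (∀ b, b ≠ some i → ∀ x ∈ B b, f x < t) ∧
      ∀ x ∈ B (some i), t < f x := by
    intro i
    obtain ⟨u, hu, h1, h2⟩ := hm.hd i
    refine ⟨innerSL ℝ u, ⟪P i, u⟫ - 2 * δ, ?_, ?_, ?_⟩
    · intro h
      have := congrArg (fun g : E3 →L[ℝ] ℝ => g u) h
      simp [hu] at this
    · intro b hb x hx
      have h3 := (abs_le.mp (inner_le_ball (u := u) hx)).2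
      rw [hu, mul_one] at h3
      rw [innerSL_apply_apply, real_inner_comm]
      rcases b with _ | j
      · simp only [c, r, Option.elim, inner_zero_left] at h3; linarith
      · have := h2 j (fun h => hb (by rw [h]))
        simp only [c, r, Option.elim] at h3; linarith
    · intro x hx
      have h3 := (abs_le.mp (inner_le_ball (u := u) hx)).1
      rw [hu, mul_one] at h3
      rw [innerSL_apply_apply, real_inner_comm x u]
      simp only [c, r, Option.elim] at h3; linarith
  have hsep2 : ∀ i j, ∃ (f : E3 →L[ℝ] ℝ) (t : ℝ), f ≠ 0 ∧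
      (∀ x ∈ B (some i) ∪ B (some j), f x < t) ∧ ∀ x ∈ B none, t < f x := by
    intro i j
    obtain ⟨u, hu, h1, h2⟩ := hm.hc i j
    refine ⟨innerSL ℝ (-u), -(ρ + δ), ?_, ?_, ?_⟩
    · intro h
      have := congrArg (fun g : E3 →L[ℝ] ℝ => g u) h
      simp [hu] at this
    · intro x hx
      rw [innerSL_apply_apply, real_inner_comm, inner_neg_right]
      rcases hx with hx | hx
      all_goals
        have h3 := (abs_le.mp (inner_le_ball (u := u) hx)).1
        rw [hu, mul_one] at h3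
        simp only [c, r, Option.elim] at h3; linarith
    · intro x hx
      have h3 := (abs_le.mp (inner_le_ball (u := u) hx)).2
      rw [hu, mul_one] at h3
      rw [innerSL_apply_apply, real_inner_comm, inner_neg_right]
      simp only [c, r, Option.elim, inner_zero_left] at h3; linarith
  have hcB : ∀ a, c a ∈ B a := fun a => Metric.mem_closedBall_self (hr a).le
  have hBinj : Function.Injective B := by
    have key : ∀ i b, B b = B (some i) → b = some i := by
      intro i b h
      by_contra hb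
      obtain ⟨f, t, -, h1, h2⟩ := hsep1 i
      have a1 := h1 b hb _ (hcB b)
      have a2 := h2 _ (h ▸ hcB b)
      linarith
    rintro (_ | i) (_ | j) h
    · rfl
    · exact key j _ h
    · exact (key i _ h.symm).symm
    · exact key j _ h
  have hmem : ∀ K, K ∈ Finset.univ.image B ↔ ∃ a, B a = K := by
    intro K; simp
  have hcard : (Finset.univ.image B).card = Fintype.card ι + 1 := by
    rw [Finset.card_image_of_injective _ hBinj, Finset.card_univ, Fintype.card_option]
  have hthree : ∀ (f : E3 →L[ℝ] ℝ) (t : ℝ) (i j k : ι), i ≠ j → i ≠ k → j ≠ k → f ≠ 0 →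
      Supports f t (B none) → Supports f t (B (some i)) → Supports f t (B (some j)) →
      Supports f t (B (some k)) → False := by
    intro f t i j k hij hik hjk hf s0 s1 s2 s3
    obtain ⟨u, hu, s, hs, hfu⟩ := riesz f hf
    have a1 := supports_ball hu hs hfu s1
    have a2 := supports_ball hu hs hfu s2
    have a3 := supports_ball hu hs hfu s3
    simp only [c, r, Option.elim] at a1 a2 a3
    rcases supports_big hu hs hρ.le hfu s0 with h | h
    · rw [h] at a1 a2 a3
      exact hB i j k hij hik hjk u hu ⟨a1, a2, a3⟩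
    · rw [h] at a1 a2 a3
      apply hB i j k hij hik hjk (-u) (by rw [norm_neg, hu])
      simp only [inner_neg_right]
      refine ⟨?_, ?_, ?_⟩
      · rw [← abs_neg]; convert a1 using 2; ring
      · rw [← abs_neg]; convert a2 using 2; ring
      · rw [← abs_neg]; convert a3 using 2; ring
  refine ⟨Finset.univ.image B, hcard, ?_, ?_, ?_, ?_, ?_⟩
  · intro K hK
    obtain ⟨a, rfl⟩ := (hmem K).mp hK
    refine ⟨isCompact_closedBall _ _, convex_closedBall _ _, c a, ?_⟩
    rw [mem_interior_iff_mem_nhds]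
    exact Metric.closedBall_mem_nhds _ (hr a)
  · intro A hA' B' hB' C hC hAB hAC hBC
    obtain ⟨a, rfl⟩ := (hmem _).mp hA'
    obtain ⟨b, rfl⟩ := (hmem _).mp hB'
    obtain ⟨d, rfl⟩ := (hmem _).mp hC
    have had : a ≠ d := fun h => hAC (by rw [h])
    have hbd : b ≠ d := fun h => hBC (by rw [h])
    rcases d with _ | k
    · rcases a with _ | i
      · exact absurd rfl had
      rcases b with _ | j
      · exact absurd rfl hbd
      exact hsep2 i j
    · obtain ⟨f, t, hf, h1, h2⟩ := hsep1 k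
      refine ⟨f, t, hf, ?_, h2⟩
      rintro x (hx | hx)
      · exact h1 a had x hx
      · exact h1 b hbd x hx
  · rintro A hA' B' hB' C hC D hD' hAB hAC hAD hBC hBD hCD ⟨f, t, hf, s1, s2, s3, s4⟩
    obtain ⟨a, rfl⟩ := (hmem _).mp hA'
    obtain ⟨b, rfl⟩ := (hmem _).mp hB'
    obtain ⟨d, rfl⟩ := (hmem _).mp hC
    obtain ⟨e, rfl⟩ := (hmem _).mp hD'
    have hab : a ≠ b := fun h => hAB (by rw [h])
    have had : a ≠ d := fun h => hAC (by rw [h])
    have hae : a ≠ e := fun h => hAD (by rw [h])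
    have hbd : b ≠ d := fun h => hBC (by rw [h])
    have hbe : b ≠ e := fun h => hBD (by rw [h])
    have hde : d ≠ e := fun h => hCD (by rw [h])
    have ne : ∀ {i j : ι}, some i ≠ some j → i ≠ j := fun h h' => h (by rw [h'])
    have sm : ∀ {o : Option ι}, none ≠ o → ∃ i, o = some i := by
      rintro (_ | i) h
      · exact absurd rfl h
      · exact ⟨i, rfl⟩
    rcases a with _ | i
    · obtain ⟨j, rfl⟩ := sm hab
      obtain ⟨k, rfl⟩ := sm had
      obtain ⟨l, rfl⟩ := sm hae
      exact hthree f t _ _ _ (ne hbd) (ne hbe) (ne hde) hf s1 s2 s3 s4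
    rcases b with _ | j
    · obtain ⟨k, rfl⟩ := sm hbd
      obtain ⟨l, rfl⟩ := sm hbe
      exact hthree f t _ _ _ (ne had) (ne hae) (ne hde) hf s2 s1 s3 s4
    rcases d with _ | k
    · obtain ⟨l, rfl⟩ := sm hde
      exact hthree f t _ _ _ (ne hab) (ne hae) (ne hbe) hf s3 s1 s2 s4
    rcases e with _ | l
    · exact hthree f t _ _ _ (ne hab) (ne had) (ne hbd) hf s4 s1 s2 s3
    obtain ⟨u, hu, s, hs, hfu⟩ := riesz f hf
    exact hA i j k l (ne hab) (ne had) (ne hae) (ne hbd) (ne hbe) (ne hde) u hu (t / s)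
      ⟨supports_ball hu hs hfu s1, supports_ball hu hs hfu s2, supports_ball hu hs hfu s3,
        supports_ball hu hs hfu s4⟩
  · intro G hG hGc C hC
    obtain ⟨a, rfl⟩ := (hmem _).mp (hG hC)
    have hsub : B a ⊆ ⋃ K ∈ G, K := fun x hx => Set.mem_biUnion hC hx
    rcases a with _ | i
    · obtain ⟨K, hK1, hK2⟩ := Finset.exists_mem_notMem_of_card_lt_card hGc
      obtain ⟨b, rfl⟩ := (hmem _).mp hK1
      rcases b with _ | i
      · exact absurd hC hK2
      obtain ⟨u, hu, h1⟩ := hm.he i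
      apply exposed_piece c r none hρ (fun b => b ≠ none ∧ b ≠ some i) u hu _ _ hsub
      · intro x hx
        simp only [Set.mem_iUnion] at hx
        obtain ⟨K, hK, hxK⟩ := hx
        obtain ⟨b, rfl⟩ := (hmem _).mp (hG hK)
        refine ⟨b, ?_, hxK⟩
        by_cases hb : b = none
        · exact Or.inl hb
        · exact Or.inr ⟨hb, fun h => hK2 (h ▸ hK)⟩
      · rintro (_ | j) ⟨hb1, hb2⟩
        · exact absurd rfl hb1
        · have := h1 j (fun h => hb2 (by rw [h]))
          simp only [c, r, Option.elim, inner_zero_left]; linarith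
    · obtain ⟨u, hu, h1⟩ := hD i
      apply exposed_piece c r (some i) hδ (fun b => b ≠ some i) u hu _ _ hsub
      · intro x hx
        simp only [Set.mem_iUnion] at hx
        obtain ⟨K, hK, hxK⟩ := hx
        obtain ⟨b, rfl⟩ := (hmem _).mp (hG hK)
        exact ⟨b, em _, hxK⟩
      · intro b hb
        have := h1 b hb
        simp only [c, r, Option.elim] at this ⊢
        linarith
  · intro hcp
    obtain ⟨U, -, ⟨x, hx⟩, hsub⟩ := hcp (B none) ((hmem _).mpr ⟨none, rfl⟩)
    have h1 := (hsub hx).2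
    apply h1
    have h2 : x ∈ B none := Metric.isClosed_closedBall.frontier_subset hx.2
    have h3 := ball_subset_hull P (ρ + η / 2) hm.hf
    have h4 : convexHull ℝ (Set.range P) ⊆ convexHull ℝ (⋃ K ∈ Finset.univ.image B, K) := by
      apply convexHull_mono
      rintro _ ⟨i, rfl⟩
      exact Set.mem_biUnion (s := ((Finset.univ.image B : Finset (Set E3)) : Set (Set E3)))
        ((hmem _).mpr ⟨some i, rfl⟩) (hcB (some i))
    apply interior_maximal (h3.trans h4) Metric.isOpen_ball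
    have : ‖x‖ ≤ ρ := by simpa [B, c, r] using h2
    simp only [Metric.mem_ball, dist_zero_right]
    linarith

theorem result (k : ℕ) (_hk : 0 < k) :
    ∃ N : ℕ, N ≤ max (k + 1) 5 ∧ ∀ n : ℕ, N ≤ n →
      ∃ F : Finset (Set (EuclideanSpace ℝ (Fin 3))),
        F.card = n ∧ (∀ K ∈ F, IsBody K) ∧ IsSeparable F ∧ IsNondegenerate F ∧
        (∀ G ⊆ F, G.card = k → InConvexPosition G) ∧ ¬ InConvexPosition F := by
  refine ⟨max (k + 1) 5, le_rfl, fun n hn => ?_⟩
  have h1 : k + 1 ≤ n := le_trans (le_max_left _ _) hn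
  have h2 : 5 ≤ n := le_trans (le_max_right _ _) hn
  obtain ⟨P, hP⟩ := exists_base (n - 2) (by omega)
  have hc : Fintype.card (Option (Fin (n - 2))) = n - 1 := by
    rw [Fintype.card_option, Fintype.card_fin]; omega
  obtain ⟨F, a1, a2, a3, a4, a5, a6⟩ := main (Option (Fin (n - 2))) (by omega) P hP
  refine ⟨F, by omega, a2, a3, a4, fun G hG hGk => a5 G hG (by omega), a6⟩

end Pool.Agent.Lib.MP_41a254_co.Old.KwiseNotGlobal
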